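import Mathlib
import Pool.Agent.Q26.CG.Coarse

set_option autoImplicit false

/-!
# Word metrics on `ℤ` from finite sets of primes: coarsely isomorphic only if the sets agree
-/

namespace Pool.Agent.Results.MP_584ea6_al.CoarseWordMetrics

/-- `Q^*`, the products of nonnegative powers of elements of `Q` -/
def Star (Q : Finset ℕ) : Set ℤ := {s | ∃ a : ℕ → ℕ, s = ∏ q ∈ Q, (q : ℤ) ^ a q}

/-- the word metric `d_Q`: the least `k` such that `m - n` is a sum of `k` elements of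
`Q^* ∪ (-Q^*)` -/
noncomputable def d (Q : Finset ℕ) (m n : ℤ) : ℕ :=
  sInf {k | ∃ L : List ℤ, L.length = k ∧ (∀ s ∈ L, s ∈ Star Q ∨ -s ∈ Star Q) ∧ m - n = L.sum}

/-- `f : (ℤ, d_Q) → (ℤ, d_R)` is controlled -/
def Controlled (Q R : Finset ℕ) (f : ℤ → ℤ) : Prop :=
  ∀ r : ℕ, ∃ r' : ℕ, ∀ x y : ℤ, d Q x y ≤ r → d R (f x) (f y) ≤ r'

/-- `f : (ℤ, d_Q) → (ℤ, d_R)` is a coarse homomorphism -/
def IsCoarseHom (Q R : Finset ℕ) (f : ℤ → ℤ) : Prop :=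
  Controlled Q R f ∧ ∃ C : ℕ, ∀ x y : ℤ, d R (f (x + y)) (f x + f y) ≤ C

/-- `f : (ℤ, d_Q) → (ℤ, d_R)` is a coarse isomorphism -/
def IsCoarseIso (Q R : Finset ℕ) (f : ℤ → ℤ) : Prop :=
  IsCoarseHom Q R f ∧ ∃ g : ℤ → ℤ, Controlled R Q g ∧
    (∃ C : ℕ, ∀ x : ℤ, d Q (g (f x)) x ≤ C) ∧ ∃ C : ℕ, ∀ y : ℤ, d R (f (g y)) y ≤ C

/-- the coarse groups `(ℤ, d_Q)` and `(ℤ, d_R)` are coarsely isomorphic -/
def CoarselyIsomorphic (Q R : Finset ℕ) : Prop := ∃ f : ℤ → ℤ, IsCoarseIso Q R f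

open Pool.Agent.Q26.CG in
lemma d_le_iff (Q : Finset ℕ) (m n : ℤ) (r : ℕ) : d Q m n ≤ r ↔ Len Q r (m - n) := by
  constructor
  · intro h
    have hne : {k | ∃ L : List ℤ, L.length = k ∧
        (∀ s ∈ L, s ∈ Star Q ∨ -s ∈ Star Q) ∧ m - n = L.sum}.Nonempty := by
      obtain ⟨L, -, h2, h3⟩ := Len.int Q (m - n)
      exact ⟨L.length, L, rfl, h2, h3.symm⟩
    obtain ⟨L, h1, h2, h3⟩ := Nat.sInf_mem hne
    exact ⟨L, by rw [h1]; exact h, h2, h3.symm⟩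
  · rintro ⟨L, h1, h2, h3⟩
    have h4 : d Q m n ≤ L.length := Nat.sInf_le ⟨L, rfl, h2, h3.symm⟩
    exact h4.trans h1

theorem result (Q₁ Q₂ : Finset ℕ) (h₁ : ∀ p ∈ Q₁, p.Prime) (h₂ : ∀ p ∈ Q₂, p.Prime) :
    CoarselyIsomorphic Q₁ Q₂ ↔ Q₁ = Q₂ := by
  constructor
  · rintro ⟨f, ⟨hf1, C0, hf2⟩, g, hg1, ⟨C, hC⟩, C', hC'⟩
    refine Pool.Agent.Q26.CG.main h₁ h₂ (f := f) (g := g) (C := C) (C' := C')
      ⟨fun r => ?_, C0, fun x y => (d_le_iff _ _ _ _).1 (hf2 x y)⟩ (fun r => ?_)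
      (fun x => (d_le_iff _ _ _ _).1 (hC x)) (fun y => (d_le_iff _ _ _ _).1 (hC' y))
    · obtain ⟨r', hr'⟩ := hf1 r
      exact ⟨r', fun x y hxy => (d_le_iff _ _ _ _).1 (hr' x y ((d_le_iff _ _ _ _).2 hxy))⟩
    · obtain ⟨r', hr'⟩ := hg1 r
      exact ⟨r', fun x y hxy => (d_le_iff _ _ _ _).1 (hr' x y ((d_le_iff _ _ _ _).2 hxy))⟩
  · rintro rfl
    have h0 : ∀ x : ℤ, d Q₁ x x ≤ 0 := by
      intro x
      rw [d_le_iff, sub_self]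
      exact Pool.Agent.Q26.CG.Len.zero Q₁
    exact ⟨id, ⟨fun r => ⟨r, fun x y h => h⟩, 0, fun x y => h0 _⟩, id,
      fun r => ⟨r, fun x y h => h⟩, ⟨0, fun x => h0 x⟩, 0, fun y => h0 y⟩

end Pool.Agent.Results.MP_584ea6_al.CoarseWordMetrics
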